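import Pool.Agent.Lib.MP_f85c9e_gt.Basic

/-!
# Characterisation of the spaces whose Pixley-Roy hyperspace is SHD
-/

namespace Pool.Agent.Results.MP_f85c9e_gt.Characterization

open Topology Pool.Agent.Lib.MP_f85c9e_gt

/-- The Pixley-Roy hyperspace of `X` is selectively highly divergent if and only if no nonempty
finite subset of `X` has a countable neighbourhood base in `X`. -/
theorem result (X : Type*) [TopologicalSpace X] :
    IsSHD (PixleyRoy X) ↔
      ∀ A : Finset X, A.Nonempty → ¬ (𝓝ˢ (A : Set X)).IsCountablyGenerated :=
  ⟨fun h A hA hc => not_isSHD_of_isCountablyGenerated A hA hc h,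
    isSHD_of_not_isCountablyGenerated⟩

end Pool.Agent.Results.MP_f85c9e_gt.Characterization
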