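import Pool.Agent.Lib.MP_f85c9e_gt.LexSpace

/-!
# The Pixley-Roy hyperspace of a compact Hausdorff space can be SHD although the space is not

We answer Q1 of MP_f85c9e_gt in the negative.  The example is the set `{0,1}^{ω₁}` with the
lexicographic order and the order topology.
-/

namespace Pool.Agent.Results.MP_f85c9e_gt.CompactCounterexample

open Pool.Agent.Lib.MP_f85c9e_gt

/-- There is a compact Hausdorff (in particular `T₁`) space `X` such that the Pixley-Roy
hyperspace of `X` is selectively highly divergent but `X` is not. -/
theorem result : ∃ (X : Type) (_ : TopologicalSpace X),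
    T1Space X ∧ T2Space X ∧ CompactSpace X ∧ IsSHD (PixleyRoy X) ∧ ¬ IsSHD X :=
  ⟨LexCube, inferInstance, inferInstance, inferInstance, inferInstance,
    isSHD_pixleyRoy_lexCube, not_isSHD_lexCube⟩

end Pool.Agent.Results.MP_f85c9e_gt.CompactCounterexample
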