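import Pool.Agent.Lib.MP_f85c9e_gt.Converse

/-!
# SHD always passes from a space to its Pixley-Roy hyperspace
-/

namespace Pool.Agent.Results.MP_f85c9e_gt.ReverseImplication

open Pool.Agent.Lib.MP_f85c9e_gt

/-- For every topological space `X` (no separation axiom and no condition on countable subsets
is needed): if `X` is selectively highly divergent, so is its Pixley-Roy hyperspace. -/
theorem result (X : Type*) [TopologicalSpace X] (hX : IsSHD X) : IsSHD (PixleyRoy X) :=
  hX.pixleyRoy

end Pool.Agent.Results.MP_f85c9e_gt.ReverseImplication
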